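import Pool.Agent.H56.BD.StmtsT

set_option autoImplicit false

namespace Pool.BD

open Relation

theorem f1N (h1 : F1s) (h2 : RCH) : F1N := by
  classical
  intro i
  haveI := i.fin
  have hmin : ∀ x : i.V, ∃ v : i.V, (x ∈ i.H → x ≠ i.q → v ∈ i.H ∧ v ≠ i.q ∧ Re i.G i.rk x v ∧
      ∀ w ∈ i.H, w ≠ i.q → Re i.G i.rk x w → i.L.lo v ≤ i.L.lo w) := by
    intro x
    by_cases hx : x ∈ i.H ∧ x ≠ i.q
    · have hne : ({v | v ∈ i.H ∧ v ≠ i.q ∧ Re i.G i.rk x v} : Set i.V).Nonempty :=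
        ⟨x, hx.1, hx.2, ReflTransGen.refl⟩
      obtain ⟨v, hv, hm⟩ := Set.exists_min_image _ (fun v => i.L.lo v) (Set.toFinite _) hne
      exact ⟨v, fun _ _ => ⟨hv.1, hv.2.1, hv.2.2, fun w hw hq hr => hm w ⟨hw, hq, hr⟩⟩⟩
    · exact ⟨x, fun ha hb => absurd ⟨ha, hb⟩ hx⟩
  choose m hm using hmin
  refine ⟨fun x => i.L.lo (m x), fun a ha haq b hb hab => ?_⟩
  have hbH := hb.1
  have hbq := hb.2.1
  have ma := hm a ha haq
  have mb := hm b hbH hbq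
  constructor
  · intro hr
    have h3 := h2 i.V i.G i.rk i.H i.q i.Q i.L i.R i.nh a ha b hbH hab hr
    exact ⟨h3.1, h3.2, ma.2.2.2 _ mb.1 mb.2.1 (ReflTransGen.trans hr mb.2.2.1)⟩
  · rintro ⟨h3, h4, h5⟩
    refine h1 i.V i.G i.rk i.H i.q i.Q i.L i.R b i.nh hb a ha haq h3 h4
      ⟨m a, ma.1, ma.2.1, ma.2.2.1, ?_⟩
    exact le_trans h5 (mb.2.2.2 b hbH hbq ReflTransGen.refl)

end Pool.BD
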