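import Pool.Agent.H56.BD.StmtsT

set_option autoImplicit false

namespace Pool.BD

open Relation

theorem insp (Pl : ∀ V : Type, SimpleGraph V → Prop) (h1 : INS) (h2 : NOD) (h3 : RED) (h4 : SCE)
    (h5 : MTStmt Pl) : INSP Pl := by
  obtain ⟨K, φ, h⟩ := h1
  refine ⟨K, φ, fun i => ?_⟩
  haveI := i.fin
  have m := h5 i.V i.G i.rk i.q0 i.pl i.inj i.min
  obtain ⟨L, ρ, t, R, hN⟩ := h2 i.V i.G i.rk i.q0 i.inj i.min m
  obtain ⟨s, act, hr⟩ := h3 i.V i.G i.rk i.q0 L ρ t R i.min hN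
  obtain ⟨SC, hSC⟩ := h4 i.V i.G i.rk i.q0 L ρ t hN.ns
  exact h { V := i.V, fin := i.fin, G := i.G, rk := i.rk, q0 := i.q0, L := L, ρ := ρ, t := t,
            R := R, nodes := hN, s := s, act := act, red := hr, SC := SC, sc := hSC }

end Pool.BD
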