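import Pool.Agent.H56.BD.StmtsT

set_option autoImplicit false

namespace Pool.BD.SCE'

open Relation

variable {V : Type}

open Classical in
private noncomputable def scF (q0 : V) (ρ : V → V) : ℕ → V → List (Fin 4 × V)
  | 0, _ => []
  | n + 1, y => if y = q0 then [] else scF q0 ρ n (ρ y) ++ [(1, y)]

private theorem scF_stable {G : SimpleGraph V} {rk : V → ℕ} {q0 : V} {L : Ct V} {ρ : V → V}
    {t : V → ℤ} (hs : NS G rk q0 L ρ t) :
    ∀ n, ∀ m y, Re G rk q0 y → rk y < n → rk y < m → scF q0 ρ n y = scF q0 ρ m y := by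
  intro n
  induction n with
  | zero => intro m y _ h _; omega
  | succ n ih =>
    intro m y hy hn hm
    obtain ⟨m, rfl⟩ : ∃ k, m = k + 1 := ⟨m - 1, by omega⟩
    by_cases hq : y = q0
    · simp [scF, hq]
    · have h1 := hs.rU y hy hq
      simp only [scF, hq, if_false]
      rw [ih m (ρ y) h1.1 (by omega) (by omega)]

end Pool.BD.SCE'

namespace Pool.BD

open Relation

theorem sce : SCE := by
  intro V G rk q0 L ρ t hs
  refine ⟨fun y => SCE'.scF q0 ρ (rk y + 1) y, ?_, ?_⟩
  · simp [SCE'.scF]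
  · intro y hy hq
    have h1 := hs.rU y hy hq
    have h2 := SCE'.scF_stable hs (rk y) (rk (ρ y) + 1) (ρ y) h1.1 h1.2.1 (by omega)
    have h3 : SCE'.scF q0 ρ (rk y + 1) y = SCE'.scF q0 ρ (rk y) (ρ y) ++ [(1, y)] := by
      simp [SCE'.scF, hq]
    rw [h3, h2]

end Pool.BD
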