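import Pool.Agent.H56.BD.StmtsT

set_option autoImplicit false

namespace Pool.BD

open Relation

private theorem wpf_aux {X : Type} (a b : Fin 4 × X) (ha : a.1 ≠ 1) (hb : b.1 ≠ 1) (hab : a ≠ b) :
    ∀ A B : List (Fin 4 × X), (∀ c ∈ A, c.1 = 1) → (∀ c ∈ B, c.1 = 1) →
      ∃ (p s s' : List (Fin 4 × X)) (e e' : Fin 4 × X), e ≠ e' ∧
        A ++ [a] = p ++ e :: s ∧ B ++ [b] = p ++ e' :: s' := by
  intro A
  induction A with
  | nil =>
    intro B _ hB
    cases B with
    | nil => exact ⟨[], [], [], a, b, hab, rfl, rfl⟩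
    | cons c B =>
      refine ⟨[], [], B ++ [b], a, c, ?_, rfl, rfl⟩
      rintro rfl
      exact ha (hB a (by simp))
  | cons c A ih =>
    intro B hA hB
    cases B with
    | nil =>
      refine ⟨[], A ++ [a], [], c, b, ?_, rfl, rfl⟩
      rintro rfl
      exact hb (hA c (by simp))
    | cons d B =>
      by_cases hcd : c = d
      · subst hcd
        obtain ⟨p, s, s', e, e', h1, h2, h3⟩ := ih B (fun x hx => hA x (by simp [hx]))
          (fun x hx => hB x (by simp [hx]))
        refine ⟨c :: p, s, s', e, e', h1, ?_, ?_⟩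
        · simp [h2]
        · simp [h3]
      · exact ⟨[], A ++ [a], B ++ [b], c, d, hcd, rfl, rfl⟩

private theorem wpf_ones {V : Type} {G : SimpleGraph V} {rk : V → ℕ} {q0 : V} {L : Ct V}
    {ρ : V → V} {t : V → ℤ} {SC : V → List (Fin 4 × V)} (hs : NS G rk q0 L ρ t)
    (hc : IsSC G rk q0 ρ SC) : ∀ n y, rk y = n → Re G rk q0 y → ∀ c ∈ SC y, c.1 = 1 := by
  intro n
  induction n using Nat.strong_induction_on with
  | _ n ih =>
    intro y hn hy c hcm
    by_cases hq : y = q0
    · subst hq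
      rw [hc.root] at hcm
      simp at hcm
    · have h1 := hs.rU y hy hq
      rw [hc.step y hy hq] at hcm
      rcases List.mem_append.1 hcm with h2 | h2
      · exact ih (rk (ρ y)) (by omega) (ρ y) rfl h1.1 c h2
      · simp only [List.mem_singleton] at h2
        rw [h2]

theorem wpf : WPF := by
  intro V G rk q0 L ρ t SC z g hs hc hz hg x y hxy
  refine wpf_aux (g x, x) (g y, y) (hg x) (hg y) ?_ _ _ (wpf_ones hs hc _ _ rfl (hz x))
    (wpf_ones hs hc _ _ rfl (hz y))
  intro h
  exact hxy (congrArg Prod.snd h)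

end Pool.BD
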